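import Mathlib

namespace Pool.Agent.Results.MP_b69f9e_co.ManyRepeats

/-- In the string `s[1..n]`, the substring `s[i..j]` occurs at position `q`. -/
def Occurs {α : Type} (s : ℕ → α) (n i j q : ℕ) : Prop :=
  q + (j - i) ≤ n ∧ ∀ d ≤ j - i, s (q + d) = s (i + d)

/-- `s[i..j]` is a right closed repeat of the string `s[1..n]`. -/
def RightClosed {α : Type} (s : ℕ → α) (n i j : ℕ) : Prop :=
  1 ≤ i ∧ i ≤ j ∧ j ≤ n ∧ ∃ i', i < i' ∧ Occurs s n i j i' ∧
    (∀ q, i < q → q < i' → ¬ Occurs s n i j q) ∧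
    (i' + (j - i) = n ∨ s (j + 1) ≠ s (i' + (j - i) + 1))

open Classical in
/-- The number of right closed repeats of `s[1..n]` starting at positions in `P`. -/
noncomputable def count {α : Type} (s : ℕ → α) (n : ℕ) (P : Finset ℕ) : ℕ :=
  ((P ×ˢ Finset.Icc 1 n).filter (fun p => RightClosed s n p.1 p.2)).card

/-- the string of the construction -/
def str (r h : ℕ) (x : ℕ) : ℕ × Bool :=
  (x % (2 * h * r), decide (x % (2 * h * r) < h * r ∧
    x % (2 * h * r) % r < x / (2 * h * r) / r ^ (x % (2 * h * r) / r) % r))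

lemma str_eq (r h t y : ℕ) (hy : y < 2 * h * r) : str r h (t * (2 * h * r) + y) =
    (y, decide (y < h * r ∧ y % r < t / r ^ (y / r) % r)) := by
  have h1 : (t * (2 * h * r) + y) % (2 * h * r) = y := by
    rw [mul_comm, Nat.mul_add_mod, Nat.mod_eq_of_lt hy]
  have h2 : (t * (2 * h * r) + y) / (2 * h * r) = t := by
    rw [mul_comm, Nat.mul_add_div (by omega), Nat.div_eq_of_lt hy, Nat.add_zero]
  unfold str
  rw [h1, h2]

lemma digit_low {r t j g v : ℕ} (hr : 0 < r) (hv : v < g) :
    (t + j * r ^ g) / r ^ v % r = t / r ^ v % r := by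
  have h1 : j * r ^ g = r ^ v * (r * (j * r ^ (g - v - 1))) := by
    have : g = v + 1 + (g - v - 1) := by omega
    conv_lhs => rw [this, pow_add, pow_succ]
    ring
  rw [h1, Nat.add_mul_div_left _ _ (by positivity), Nat.add_mul_mod_self_left]

lemma digit_at {r t j g : ℕ} (hr : 0 < r) (hj1 : 1 ≤ j) (hj2 : j ≤ r) (ht : t / r ^ g % r = r - 1) :
    (t + j * r ^ g) / r ^ g % r = j - 1 := by
  rw [mul_comm j, Nat.add_mul_div_left _ _ (by positivity), Nat.add_mod, ht]
  rcases Nat.lt_or_ge j r with h | h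
  · rw [Nat.mod_eq_of_lt h]
    have : r - 1 + j = (j - 1) + r := by omega
    rw [this, Nat.add_mod_right, Nat.mod_eq_of_lt (by omega)]
  · have : j = r := le_antisymm hj2 h
    subst this
    rw [Nat.mod_self, Nat.add_zero, Nat.mod_eq_of_lt (by omega)]

lemma mod_eq_of_digits {r a b : ℕ} : ∀ g : ℕ, (∀ v < g, a / r ^ v % r = b / r ^ v % r) →
    a % r ^ g = b % r ^ g := by
  intro g
  induction g with
  | zero => intro _; simp [Nat.mod_one]
  | succ g ih =>
    intro hh
    rw [Nat.mod_pow_succ, Nat.mod_pow_succ, ih (fun v hv => hh v (by omega)), hh g (by omega)]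

lemma closed {r h t g j o : ℕ} (hr : 2 ≤ r) (ht1 : 1 ≤ t) (ht : t < r ^ h) (hg : g < h)
    (hd : t / r ^ g % r = r - 1) (hj1 : 1 ≤ j) (hj2 : j < r) (ho1 : h * r ≤ o)
    (ho2 : o < 2 * h * r) :
    RightClosed (str r h) (2 * r ^ h * (2 * h * r)) ((t - 1) * (2 * h * r) + o)
      (t * (2 * h * r) + (g * r + (j - 1)) - 1) := by
  set L := 2 * h * r with hL
  have hr0 : 0 < r := by omega
  obtain ⟨u, rfl⟩ : ∃ u, t = u + 1 := ⟨t - 1, by omega⟩
  rw [Nat.add_sub_cancel]
  have hy0 : g * r + (j - 1) < h * r := by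
    calc g * r + (j - 1) < g * r + r := by omega
      _ = (g + 1) * r := by ring
      _ ≤ h * r := Nat.mul_le_mul_right _ hg
  have hhr : 1 ≤ h * r := by omega
  have hLL : L = 2 * (h * r) := by rw [hL]; ring
  have hmul : (u + 1) * L = u * L + L := by ring
  have hcc : j * r ^ g + 1 ≤ r ^ h := by
    calc j * r ^ g + 1 ≤ (r - 1) * r ^ g + 1 := by
          apply Nat.add_le_add_right; exact Nat.mul_le_mul_right _ (by omega)
      _ ≤ (r - 1) * r ^ g + r ^ g := by
          apply Nat.add_le_add_left; exact Nat.one_le_pow _ _ hr0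
      _ = (r - 1 + 1) * r ^ g := by ring
      _ = r * r ^ g := by rw [Nat.sub_add_cancel (by omega)]
      _ = r ^ (g + 1) := by rw [pow_succ]; ring
      _ ≤ r ^ h := Nat.pow_le_pow_right hr0 hg
  set c := j * r ^ g with hc
  have hc1 : 1 ≤ c := Nat.mul_pos (by omega) (by positivity)
  have htot : (u + 1 + c + 1) * L ≤ 2 * r ^ h * L := Nat.mul_le_mul_right _ (by omega)
  have htot' : (u + 1 + c + 1) * L = u * L + L + c * L + L := by ring
  have hoff : ∀ y, y < g * r + (j - 1) → str r h ((u + 1 + c) * L + y) =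
      str r h ((u + 1) * L + y) := by
    intro y hy
    rw [str_eq r h _ y (by omega), str_eq r h _ y (by omega)]
    have key : (y % r < (u + 1 + c) / r ^ (y / r) % r) ↔ (y % r < (u + 1) / r ^ (y / r) % r) := by
      rcases Nat.lt_or_ge (y / r) g with hlt | hge
      · rw [hc, digit_low hr0 hlt]
      · have h1 := Nat.div_add_mod y r
        have h2 := Nat.mod_lt y hr0
        have hyg : y / r = g := by
          apply le_antisymm _ hge
          have : y / r < g + 1 := by
            rw [Nat.div_lt_iff_lt_mul hr0]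
            have : (g + 1) * r = g * r + r := by ring
            omega
          omega
        have h3 : y % r < j - 1 := by
          rw [hyg] at h1
          rw [mul_comm r g] at h1
          omega
        rw [hyg, hc, digit_at hr0 hj1 hj2.le hd, hd]
        omega
    have : (y < h * r ∧ y % r < (u + 1 + c) / r ^ (y / r) % r) ↔
        (y < h * r ∧ y % r < (u + 1) / r ^ (y / r) % r) := by rw [key]
    simp only [this]
  refine ⟨by omega, by omega, by omega, u * L + o + c * L, by
    have : 0 < c * L := Nat.mul_pos hc1 (by omega)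
    omega, ⟨by omega, ?_⟩, ?_, ?_⟩
  · -- occurrence
    intro d hd'
    rcases Nat.lt_or_ge (o + d) L with hlt | hge
    · have e1 : u * L + o + c * L + d = (u + c) * L + (o + d) := by ring
      have e2 : u * L + o + d = u * L + (o + d) := by ring
      rw [e1, e2, str_eq r h _ _ hlt, str_eq r h _ _ hlt]
      have : ¬ (o + d < h * r) := by omega
      simp [this]
    · obtain ⟨y, hy⟩ : ∃ y, o + d = L + y := ⟨o + d - L, by omega⟩
      have e1 : u * L + o + c * L + d = (u + 1 + c) * L + y := by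
        have : (u + 1 + c) * L = u * L + L + c * L := by ring
        omega
      have e2 : u * L + o + d = (u + 1) * L + y := by omega
      rw [e1, e2]
      apply hoff
      omega
  · -- no earlier occurrence
    intro q hq1 hq2 hocc
    obtain ⟨δ, hδ⟩ : ∃ δ, q = u * L + o + δ := ⟨q - (u * L + o), by omega⟩
    have hmod : δ % L = 0 := by
      have h0 := hocc.2 0 (by omega)
      rw [Nat.add_zero, Nat.add_zero] at h0
      have h1 := congrArg Prod.fst h0
      unfold str at h1
      simp only at h1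
      rw [← hL] at h1
      have h2 : u * L + o ≡ u * L + o + δ [MOD L] := by
        rw [hδ] at h1; exact h1.symm
      have h3 : u * L + o + 0 ≡ u * L + o + δ [MOD L] := by rwa [Nat.add_zero]
      have h4 := Nat.ModEq.add_left_cancel' _ h3
      exact (h4.symm)
    obtain ⟨c', hc'⟩ : ∃ c', δ = c' * L := ⟨δ / L, by
      have := Nat.div_add_mod δ L
      rw [hmod, Nat.add_zero] at this
      rw [mul_comm]; exact this.symm⟩
    have hc'0 : 0 < c' := by
      rcases Nat.eq_zero_or_pos c' with h0 | h0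
      · rw [h0] at hc'; omega
      · exact h0
    have hc'c : c' < c := by
      have : c' * L < c * L := by omega
      exact Nat.lt_of_mul_lt_mul_right this
    -- mismatch at offset y
    have mis : ∀ v, v < h → ∀ (y : ℕ), y = v * r + min ((u + 1) / r ^ v % r)
        ((u + 1 + c') / r ^ v % r) → (u + 1) / r ^ v % r ≠ (u + 1 + c') / r ^ v % r →
        y < g * r + (j - 1) → False := by
      intro v hv y hy hne hlt
      have hm1 := Nat.mod_lt ((u + 1) / r ^ v) hr0
      have hm2 := Nat.mod_lt ((u + 1 + c') / r ^ v) hr0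
      set A := (u + 1) / r ^ v % r with hA
      set B := (u + 1 + c') / r ^ v % r with hB
      have hmin : min A B < r := by omega
      have hyr : y / r = v := by
        rw [hy, mul_comm v r, Nat.mul_add_div hr0, Nat.div_eq_of_lt hmin, Nat.add_zero]
      have hym : y % r = min A B := by
        rw [hy, mul_comm v r, Nat.mul_add_mod, Nat.mod_eq_of_lt hmin]
      have hd1 : L - o + y ≤ u.succ * L + (g * r + (j - 1)) - 1 - (u * L + o) := by
        have : u.succ * L = u * L + L := hmul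
        omega
      have h1 := hocc.2 (L - o + y) hd1
      have e1 : q + (L - o + y) = (u + 1 + c') * L + y := by
        have : (u + 1 + c') * L = u * L + L + c' * L := by ring
        omega
      have e2 : u * L + o + (L - o + y) = (u + 1) * L + y := by omega
      rw [e1, e2, str_eq r h _ y (by omega), str_eq r h _ y (by omega), hyr, hym, ← hA, ← hB] at h1
      have h2 := congrArg Prod.snd h1
      simp only [decide_eq_decide] at h2
      have h3 : y < h * r := by omega
      simp only [h3, true_and] at h2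
      omega
    by_cases hdiv : r ^ g ∣ c'
    · obtain ⟨j', hj'⟩ := hdiv
      have hj'0 : 1 ≤ j' := by
        rcases Nat.eq_zero_or_pos j' with h0 | h0
        · rw [h0] at hj'; omega
        · exact h0
      have hj'j : j' < j := by
        have : j' * r ^ g < j * r ^ g := by rw [mul_comm]; rw [← hj', ← hc]; exact hc'c
        exact Nat.lt_of_mul_lt_mul_right this
      have hdig : (u + 1 + c') / r ^ g % r = j' - 1 := by
        rw [hj', mul_comm]; exact digit_at hr0 hj'0 (by omega) hd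
      apply mis g hg _ rfl
      · rw [hdig, hd]; omega
      · rw [hdig, hd]; omega
    · have : ∃ v < g, (u + 1) / r ^ v % r ≠ (u + 1 + c') / r ^ v % r := by
        by_contra hcon
        push Not at hcon
        have h1 := mod_eq_of_digits g hcon
        apply hdiv
        have h2 : u + 1 + 0 ≡ u + 1 + c' [MOD r ^ g] := by rw [Nat.add_zero]; exact h1
        have h3 := Nat.ModEq.add_left_cancel' _ h2
        exact (Nat.modEq_zero_iff_dvd.mp h3.symm)
      obtain ⟨v, hv, hne⟩ := this
      apply mis v (by omega) _ rfl hne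
      have hm1 := Nat.mod_lt ((u + 1) / r ^ v) hr0
      have h5 : (v + 1) * r ≤ g * r := Nat.mul_le_mul_right _ hv
      have h6 : (v + 1) * r = v * r + r := by ring
      omega
  · -- mismatch
    right
    have e1 : (u + 1) * L + (g * r + (j - 1)) - 1 + 1 = (u + 1) * L + (g * r + (j - 1)) := by omega
    have e2 : u * L + o + c * L + ((u + 1) * L + (g * r + (j - 1)) - 1 - (u * L + o)) + 1 =
        (u + 1 + c) * L + (g * r + (j - 1)) := by
      have : (u + 1 + c) * L = u * L + L + c * L := by ring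
      omega
    rw [e1, e2, str_eq r h _ _ (by omega), str_eq r h _ _ (by omega)]
    have hdv : (g * r + (j - 1)) / r = g := by
      rw [mul_comm g r, Nat.mul_add_div hr0, Nat.div_eq_of_lt (by omega), Nat.add_zero]
    have hmd : (g * r + (j - 1)) % r = j - 1 := by
      rw [mul_comm g r, Nat.mul_add_mod, Nat.mod_eq_of_lt (by omega)]
    rw [hdv, hmd, hc, digit_at hr0 hj1 hj2.le hd, hd]
    intro hcon
    have h2 := congrArg Prod.snd hcon
    simp only [decide_eq_decide] at h2
    omega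

/-! ### Counting -/

/-- pairs (number, level) with digit `r-1` -/
def A (r h : ℕ) : Finset (ℕ × ℕ) :=
  (Finset.range (r ^ h) ×ˢ Finset.range h).filter (fun p => p.1 / r ^ p.2 % r = r - 1)

lemma card_A (r h : ℕ) (hr : 2 ≤ r) : h * r ^ (h - 1) ≤ (A r h).card := by
  have hr0 : 0 < r := by omega
  have h1 : (Finset.range h ×ˢ Finset.range (r ^ (h - 1))).card = h * r ^ (h - 1) := by
    rw [Finset.card_product, Finset.card_range, Finset.card_range]
  rw [← h1]
  have dig : ∀ g s : ℕ, (s % r ^ g + r ^ g * ((r - 1) + r * (s / r ^ g))) / r ^ g =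
      (r - 1) + r * (s / r ^ g) := by
    intro g s
    have hp : 0 < r ^ g := by positivity
    rw [Nat.add_mul_div_left _ _ hp, Nat.div_eq_of_lt (Nat.mod_lt _ hp), Nat.zero_add]
  apply Finset.card_le_card_of_injOn
    (fun p => (p.2 % r ^ p.1 + r ^ p.1 * ((r - 1) + r * (p.2 / r ^ p.1)), p.1))
  · rintro ⟨g, s⟩ hp
    simp only [Finset.coe_product, Finset.coe_range, Set.mem_prod, Set.mem_Iio] at hp
    obtain ⟨hg, hs⟩ := hp
    simp only [A, Finset.coe_filter, Finset.mem_product, Finset.mem_range, Set.mem_ofPred_eq]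
    have hp : 0 < r ^ g := by positivity
    have hpow : r ^ (h - 1) = r ^ g * r ^ (h - 1 - g) := by
      rw [← pow_add]; congr 1; omega
    have hq : s / r ^ g < r ^ (h - 1 - g) := by
      apply Nat.div_lt_of_lt_mul
      rw [← hpow]; exact hs
    refine ⟨⟨?_, hg⟩, ?_⟩
    · have hm := Nat.mod_lt s hp
      calc s % r ^ g + r ^ g * ((r - 1) + r * (s / r ^ g))
          < r ^ g + r ^ g * ((r - 1) + r * (s / r ^ g)) := Nat.add_lt_add_right hm _
        _ = r ^ g * ((r - 1 + 1) + r * (s / r ^ g)) := by ring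
        _ = r ^ g * (r * (s / r ^ g + 1)) := by rw [Nat.sub_add_cancel (by omega)]; ring
        _ ≤ r ^ g * (r * r ^ (h - 1 - g)) :=
            Nat.mul_le_mul_left _ (Nat.mul_le_mul_left _ hq)
        _ = r ^ h := by
            rw [← pow_succ', ← pow_add]; congr 1; omega
    · rw [dig, Nat.add_mul_mod_self_left, Nat.mod_eq_of_lt (by omega)]
  · rintro ⟨g, s⟩ _ ⟨g', s'⟩ _ heq
    simp only [Prod.mk.injEq] at heq
    obtain ⟨h2, rfl⟩ := heq
    have hp : 0 < r ^ g := by positivity
    have h3 := congrArg (· / r ^ g) h2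
    have h4 := congrArg (· % r ^ g) h2
    simp only [dig] at h3
    simp only [Nat.add_mul_mod_self_left, Nat.mod_mod] at h4
    have h5 : s / r ^ g = s' / r ^ g := by
      have : r * (s / r ^ g) = r * (s' / r ^ g) := by omega
      exact Nat.eq_of_mul_eq_mul_left hr0 this
    have h6 := Nat.div_add_mod s (r ^ g)
    have h7 := Nat.div_add_mod s' (r ^ g)
    rw [h5, h4] at h6
    simp only [Prod.mk.injEq, true_and]
    omega

/-- the set of starting positions -/
def P (r h : ℕ) : Finset ℕ :=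
  (((A r h).image Prod.fst) ×ˢ Finset.Ico (h * r) (2 * h * r)).image
    (fun p => (p.1 - 1) * (2 * h * r) + p.2)

lemma card_P (r h : ℕ) : (P r h).card ≤ (A r h).card * (h * r) := by
  unfold P
  refine Finset.card_image_le.trans ?_
  rw [Finset.card_product]
  apply Nat.mul_le_mul Finset.card_image_le
  rw [Nat.card_Ico]
  have : 2 * h * r = h * r + h * r := by ring
  omega

lemma mem_A {r h t g : ℕ} (hr : 2 ≤ r) (hA : (t, g) ∈ A r h) :
    1 ≤ t ∧ t < r ^ h ∧ g < h ∧ t / r ^ g % r = r - 1 := by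
  simp only [A, Finset.mem_filter, Finset.mem_product, Finset.mem_range] at hA
  refine ⟨?_, hA.1.1, hA.1.2, hA.2⟩
  rcases Nat.eq_zero_or_pos t with h0 | h0
  · rw [h0] at hA; simp at hA; omega
  · exact h0

lemma P_sub (r h : ℕ) (hr : 2 ≤ r) :
    P r h ⊆ Finset.Icc 1 (2 * r ^ h * (2 * h * r)) := by
  intro x hx
  simp only [P, Finset.mem_image, Finset.mem_product, Finset.mem_Ico, Prod.exists] at hx
  obtain ⟨t, o, ⟨⟨t', g, hA, rfl⟩, ho1, ho2⟩, rfl⟩ := hx
  obtain ⟨h1, h2, h3, h4⟩ := mem_A hr hA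
  have h5 : 1 ≤ h * r := Nat.mul_pos (by omega) (by omega)
  rw [Finset.mem_Icc]
  refine ⟨by omega, ?_⟩
  calc (t' - 1) * (2 * h * r) + o ≤ (t' - 1) * (2 * h * r) + 2 * h * r := by omega
    _ = (t' - 1 + 1) * (2 * h * r) := by ring
    _ ≤ (2 * r ^ h) * (2 * h * r) := Nat.mul_le_mul_right _ (by omega)

lemma count_lower (r h : ℕ) (hr : 2 ≤ r) :
    (A r h).card * (r - 1) * (h * r) ≤
      count (str r h) (2 * r ^ h * (2 * h * r)) (P r h) := by
  have h1 : ((A r h ×ˢ Finset.Icc 1 (r - 1)) ×ˢ Finset.Ico (h * r) (2 * h * r)).card =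
      (A r h).card * (r - 1) * (h * r) := by
    rw [Finset.card_product, Finset.card_product, Nat.card_Icc, Nat.card_Ico]
    have : 2 * h * r - h * r = h * r := by
      have : 2 * h * r = h * r + h * r := by ring
      omega
    rw [this, Nat.add_sub_cancel]
  rw [← h1]
  unfold count
  apply Finset.card_le_card_of_injOn (fun p => ((p.1.1.1 - 1) * (2 * h * r) + p.2,
    p.1.1.1 * (2 * h * r) + (p.1.1.2 * r + (p.1.2 - 1)) - 1))
  · rintro ⟨⟨⟨t, g⟩, j⟩, o⟩ hp
    simp only [Finset.coe_product, Set.mem_prod, Finset.mem_coe, Finset.mem_Icc,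
      Finset.mem_Ico] at hp
    obtain ⟨⟨hA, hj1, hj2⟩, ho1, ho2⟩ := hp
    obtain ⟨ht1, ht2, hg, hd⟩ := mem_A hr hA
    have hcl := closed hr ht1 ht2 hg hd hj1 (show j < r by omega) ho1 ho2
    simp only [Finset.coe_filter, Finset.mem_product, Finset.mem_Icc, Set.mem_ofPred_eq]
    refine ⟨⟨?_, ?_⟩, hcl⟩
    · unfold P
      rw [Finset.mem_image]
      exact ⟨(t, o), Finset.mem_product.mpr ⟨Finset.mem_image.mpr ⟨(t, g), hA, rfl⟩,
        Finset.mem_Ico.mpr ⟨ho1, ho2⟩⟩, rfl⟩
    · exact ⟨hcl.1.trans hcl.2.1, hcl.2.2.1⟩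
  · rintro ⟨⟨⟨t, g⟩, j⟩, o⟩ hp ⟨⟨⟨t', g'⟩, j'⟩, o'⟩ hp' heq
    simp only [Finset.coe_product, Set.mem_prod, Finset.mem_coe, Finset.mem_Icc,
      Finset.mem_Ico] at hp hp'
    obtain ⟨⟨hA, hj1, hj2⟩, ho1, ho2⟩ := hp
    obtain ⟨ht1, ht2, hg, hd⟩ := mem_A hr hA
    obtain ⟨⟨hA', hj1', hj2'⟩, ho1', ho2'⟩ := hp'
    obtain ⟨ht1', ht2', hg', hd'⟩ := mem_A hr hA'
    simp only [Prod.mk.injEq] at heq
    obtain ⟨e1, e2⟩ := heq
    have hL : 0 < 2 * h * r := by omega
    have f1 := congrArg (· / (2 * h * r)) e1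
    rw [mul_comm (t - 1), mul_comm (t' - 1), Nat.mul_add_div hL, Nat.mul_add_div hL,
      Nat.div_eq_of_lt ho2, Nat.div_eq_of_lt ho2'] at f1
    have ht : t = t' := by omega
    subst ht
    have ho : o = o' := by omega
    subst ho
    have hLt : 1 ≤ t * (2 * h * r) := Nat.mul_pos ht1 hL
    have f2 : g * r + (j - 1) = g' * r + (j' - 1) := by omega
    have hr0 : 0 < r := by omega
    have f3 := congrArg (· / r) f2
    rw [mul_comm g, mul_comm g', Nat.mul_add_div hr0, Nat.mul_add_div hr0,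
      Nat.div_eq_of_lt (by omega), Nat.div_eq_of_lt (by omega)] at f3
    have hgg : g = g' := by omega
    subst hgg
    have : j = j' := by omega
    subst this
    rfl

lemma cube_le (h : ℕ) (hh : 10 ≤ h) : h ^ 3 ≤ 2 ^ h := by
  induction h, hh using Nat.le_induction with
  | base => norm_num
  | succ h hh ih =>
    calc (h + 1) ^ 3 ≤ 2 * h ^ 3 := by
          obtain ⟨k, rfl⟩ : ∃ k, h = 10 + k := ⟨h - 10, by omega⟩
          ring_nf
          nlinarith [sq_nonneg k, Nat.zero_le (k ^ 3), Nat.zero_le k]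
      _ ≤ 2 * 2 ^ h := Nat.mul_le_mul_left _ ih
      _ = 2 ^ (h + 1) := by ring

/-- For every constant `C` there are a string `s[1..n]` and a set `P ⊆ [1..n]` such that more than
`C (n + |P| log₂ n)` right closed repeats of `s` start at positions in `P`. -/
theorem result : ∀ C : ℝ, ∃ (n : ℕ) (s : ℕ → ℕ × Bool) (P : Finset ℕ),
    1 ≤ n ∧ P ⊆ Finset.Icc 1 n ∧
    C * ((n : ℝ) + (P.card : ℝ) * Real.logb 2 n) < (count s n P : ℝ) := by
  intro C
  -- choice of parameters
  obtain ⟨D, hD1, hDC⟩ : ∃ D : ℕ, 1 ≤ D ∧ C ≤ D := by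
    obtain ⟨D, hD⟩ := exists_nat_ge (max C 1)
    refine ⟨D, ?_, (le_max_left _ _).trans hD⟩
    exact_mod_cast (le_max_right _ _).trans hD
  obtain ⟨h, hDh, h10⟩ : ∃ h : ℕ, 18 * D < h ∧ 10 ≤ h := ⟨18 * D + 10, by omega, by omega⟩
  obtain ⟨r, hr⟩ : ∃ r : ℕ, r = 2 ^ h := ⟨_, rfl⟩
  have hr2 : 2 ≤ r := by
    rw [hr]
    calc 2 = 2 ^ 1 := by norm_num
      _ ≤ 2 ^ h := Nat.pow_le_pow_right (by norm_num) (by omega)
  obtain ⟨n, hn⟩ : ∃ n : ℕ, n = 2 * r ^ h * (2 * h * r) := ⟨_, rfl⟩
  have hn1 : 1 ≤ n := by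
    rw [hn]
    have : 0 < r ^ h := by positivity
    have : 0 < 2 * h * r := by positivity
    have : 0 < 2 * r ^ h * (2 * h * r) := by positivity
    omega
  refine ⟨n, str r h, P r h, hn1, by rw [hn]; exact P_sub r h hr2, ?_⟩
  obtain ⟨a, ha⟩ : ∃ a : ℕ, a = (A r h).card := ⟨_, rfl⟩
  have hapos : 0 < a := by rw [ha]; exact lt_of_lt_of_le (by positivity) (card_A r h hr2)
  have hna : n ≤ 4 * r ^ 2 * a := by
    calc n = 4 * r ^ 2 * (h * r ^ (h - 1)) := by
          rw [hn]
          have : r ^ h = r ^ (h - 1) * r := by rw [← pow_succ]; congr 1; omega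
          rw [this]; ring
      _ ≤ 4 * r ^ 2 * a := by rw [ha]; exact Nat.mul_le_mul_left _ (card_A r h hr2)
  have hPa : (P r h).card ≤ a * (h * r) := by rw [ha]; exact card_P r h
  have hcnt : a * (r - 1) * (h * r) ≤ count (str r h) n (P r h) := by
    rw [ha, hn]; exact count_lower r h hr2
  have hlog : Real.logb 2 n ≤ 5 * (h : ℝ) ^ 2 := by
    have h1 : n ≤ 2 ^ (5 * h ^ 2) := by
      calc n = 4 * (h * (2 ^ h) ^ (h + 1)) := by rw [hn, hr]; ring
        _ ≤ 4 * (2 ^ h * (2 ^ h) ^ (h + 1)) := by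
            apply Nat.mul_le_mul_left
            apply Nat.mul_le_mul_right
            exact Nat.lt_two_pow_self.le
        _ = 2 ^ (h ^ 2 + 2 * h + 2) := by
            rw [← pow_mul, ← pow_add, show (4 : ℕ) = 2 ^ 2 by norm_num, ← pow_add]
            congr 1
            ring
        _ ≤ 2 ^ (5 * h ^ 2) := Nat.pow_le_pow_right (by norm_num) (by nlinarith)
    calc Real.logb 2 n ≤ Real.logb 2 ((2 : ℝ) ^ (5 * h ^ 2)) := by
          apply Real.logb_le_logb_of_le (by norm_num) (by exact_mod_cast hn1)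
          exact_mod_cast h1
      _ = 5 * (h : ℝ) ^ 2 := by
          rw [Real.logb_pow]; simp
  have hcube : (h : ℝ) ^ 3 ≤ r := by
    have := cube_le h h10
    rw [hr]; exact_mod_cast this
  have hR : (2 : ℝ) ≤ r := by exact_mod_cast hr2
  have hhR : (10 : ℝ) ≤ h := by exact_mod_cast h10
  have haR : (0 : ℝ) < a := by exact_mod_cast hapos
  have hDR : (18 : ℝ) * D < h := by exact_mod_cast hDh
  have hD0 : (0 : ℝ) ≤ D := by positivity
  have hlog0 : 0 ≤ Real.logb 2 n := Real.logb_nonneg (by norm_num) (by exact_mod_cast hn1)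
  have s1 : C * ((n : ℝ) + ((P r h).card : ℝ) * Real.logb 2 n) ≤
      D * ((4 * r ^ 2 * a : ℝ) + (a * (h * r)) * (5 * (h : ℝ) ^ 2)) := by
    have t1 : (n : ℝ) ≤ 4 * r ^ 2 * a := by exact_mod_cast hna
    have t2 : ((P r h).card : ℝ) ≤ a * (h * r) := by exact_mod_cast hPa
    have t3 : ((P r h).card : ℝ) * Real.logb 2 n ≤ (a * (h * r)) * (5 * (h : ℝ) ^ 2) :=
      mul_le_mul t2 hlog hlog0 (by positivity)
    calc C * ((n : ℝ) + ((P r h).card : ℝ) * Real.logb 2 n)
        ≤ D * ((n : ℝ) + ((P r h).card : ℝ) * Real.logb 2 n) :=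
          mul_le_mul_of_nonneg_right hDC (by positivity)
      _ ≤ _ := mul_le_mul_of_nonneg_left (by linarith) hD0
  have s2 : (D : ℝ) * ((4 * r ^ 2 * a : ℝ) + (a * (h * r)) * (5 * (h : ℝ) ^ 2)) <
      a * (r - 1) * (h * r) := by
    have e1 : (D : ℝ) * ((4 * r ^ 2 * a : ℝ) + (a * (h * r)) * (5 * (h : ℝ) ^ 2)) =
        (a * r) * (D * (4 * r + 5 * (h : ℝ) ^ 3)) := by ring
    have e2 : (a : ℝ) * (r - 1) * (h * r) = (a * r) * ((r - 1) * h) := by ring
    rw [e1, e2]
    apply mul_lt_mul_of_pos_left _ (by positivity)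
    calc (D : ℝ) * (4 * r + 5 * (h : ℝ) ^ 3) ≤ D * (4 * r + 5 * r) := by
          apply mul_le_mul_of_nonneg_left _ hD0
          linarith
      _ = (18 * D) * (r / 2) := by ring
      _ < h * (r / 2) := mul_lt_mul_of_pos_right hDR (by linarith)
      _ ≤ (r - 1) * h := by nlinarith
  have s3 : (a : ℝ) * (r - 1) * (h * r) ≤ (count (str r h) n (P r h) : ℝ) := by
    have : ((r - 1 : ℕ) : ℝ) = (r : ℝ) - 1 := by
      rw [Nat.cast_sub (by omega)]; simp
    rw [← this]
    exact_mod_cast hcnt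
  linarith

end Pool.Agent.Results.MP_b69f9e_co.ManyRepeats
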